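import Mathlib
import Pool.Agent.Helper648.FX.Table

set_option autoImplicit false

open Filter Topology

namespace Pool.Agent.Helper648.FX

/-- the `5x+1` map -/
def T (m : ℕ) : ℕ := if m % 2 = 0 then m / 2 else (5 * m + 1) / 2

/-- the numbers that reach `m` after exactly `k` steps -/
def A (k m : ℕ) : Set ℕ := {n | T^[k] n = m}

theorem A_zero (m : ℕ) : A 0 m = {m} := by
  ext n; simp [A]

theorem A_succ_three (k m : ℕ) (hm : m % 5 = 3) :
    A (k + 1) m ⊆ A k (2 * m) ∪ A k ((2 * m - 1) / 5) := by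
  intro n hn
  simp only [A, Set.mem_ofPred_eq, Function.iterate_succ_apply', Set.mem_union] at hn ⊢
  generalize T^[k] n = y at hn ⊢
  unfold T at hn
  split_ifs at hn with h <;> omega

theorem A_succ_other (k m : ℕ) (hm : m % 5 ≠ 3) : A (k + 1) m ⊆ A k (2 * m) := by
  intro n hn
  simp only [A, Set.mem_ofPred_eq, Function.iterate_succ_apply'] at hn ⊢
  generalize T^[k] n = y at hn ⊢
  unfold T at hn
  split_ifs at hn with h <;> omega

theorem A_finite (k : ℕ) : ∀ m, (A k m).Finite := by
  induction k with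
  | zero => intro m; rw [A_zero]; exact Set.finite_singleton m
  | succ k ih =>
    intro m
    by_cases hm : m % 5 = 3
    · exact ((ih _).union (ih _)).subset (A_succ_three k m hm)
    · exact (ih _).subset (A_succ_other k m hm)

theorem w_pos (r : ℕ) (hr : r < 15625) : 1 ≤ w r := by
  have h := tst_all r hr
  rw [tst, Bool.and_eq_true] at h
  exact Nat.le_of_ble_eq_true h.1

theorem w_other (r : ℕ) (hr : r < 15625) (h3 : r % 5 ≠ 3) :
    1000 * w (2 * r % 15625) ≤ 1221 * w r := by
  have h := tst_all r hr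
  rw [tst, Bool.and_eq_true] at h
  have h2 := h.2
  have h4 : Nat.beq (r % 5) 3 = false := by
    cases h5 : Nat.beq (r % 5) 3 with
    | false => rfl
    | true => exact absurd (Nat.eq_of_beq_eq_true h5) h3
  rw [h4, cond_false] at h2
  exact Nat.le_of_ble_eq_true h2

theorem w_three (r t : ℕ) (hr : r < 15625) (h3 : r % 5 = 3) (ht : t < 5) :
    1000 * (w (2 * r % 15625) + w (((2 * r - 1) / 5 + 3125 * t) % 15625)) ≤ 1221 * w r := by
  have h := tst_all r hr
  rw [tst, Bool.and_eq_true] at h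
  have h2 := h.2
  have h4 : Nat.beq (r % 5) 3 = true := by rw [h3]; rfl
  rw [h4, cond_true] at h2
  simp only [Bool.and_eq_true] at h2
  obtain ⟨⟨⟨⟨a0, a1⟩, a2⟩, a3⟩, a4⟩ := h2
  interval_cases t
  · simpa using Nat.le_of_ble_eq_true a0
  · simpa using Nat.le_of_ble_eq_true a1
  · simpa using Nat.le_of_ble_eq_true a2
  · simpa using Nat.le_of_ble_eq_true a3
  · simpa using Nat.le_of_ble_eq_true a4

theorem bound (k : ℕ) : ∀ m, (A k m).ncard * 1000 ^ k ≤ w (m % 15625) * 1221 ^ k := by
  induction k with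
  | zero =>
    intro m
    rw [A_zero, Set.ncard_singleton]
    simpa using w_pos (m % 15625) (Nat.mod_lt _ (by norm_num))
  | succ k ih =>
    intro m
    have hr : m % 15625 < 15625 := Nat.mod_lt _ (by norm_num)
    have h2 : (2 * m) % 15625 = 2 * (m % 15625) % 15625 := by omega
    by_cases hm : m % 5 = 3
    · have h1 : (A (k + 1) m).ncard ≤ (A k (2 * m)).ncard + (A k ((2 * m - 1) / 5)).ncard :=
        (Set.ncard_le_ncard (A_succ_three k m hm)
          ((A_finite _ _).union (A_finite _ _))).trans (Set.ncard_union_le _ _)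
      have h3 : ((2 * m - 1) / 5) % 15625 =
          ((2 * (m % 15625) - 1) / 5 + 3125 * ((2 * (m / 15625)) % 5)) % 15625 := by omega
      have h4 := w_three (m % 15625) ((2 * (m / 15625)) % 5) hr (by omega)
        (Nat.mod_lt _ (by norm_num))
      rw [← h2, ← h3] at h4
      have i1 := ih (2 * m)
      have i2 := ih ((2 * m - 1) / 5)
      calc (A (k + 1) m).ncard * 1000 ^ (k + 1)
          ≤ ((A k (2 * m)).ncard + (A k ((2 * m - 1) / 5)).ncard) * 1000 ^ (k + 1) :=
            Nat.mul_le_mul_right _ h1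
        _ = 1000 * ((A k (2 * m)).ncard * 1000 ^ k + (A k ((2 * m - 1) / 5)).ncard * 1000 ^ k) := by
            ring
        _ ≤ 1000 * (w ((2 * m) % 15625) * 1221 ^ k + w (((2 * m - 1) / 5) % 15625) * 1221 ^ k) :=
            Nat.mul_le_mul_left _ (Nat.add_le_add i1 i2)
        _ = 1000 * (w ((2 * m) % 15625) + w (((2 * m - 1) / 5) % 15625)) * 1221 ^ k := by ring
        _ ≤ 1221 * w (m % 15625) * 1221 ^ k := Nat.mul_le_mul_right _ h4
        _ = w (m % 15625) * 1221 ^ (k + 1) := by ring
    · have h1 : (A (k + 1) m).ncard ≤ (A k (2 * m)).ncard :=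
        Set.ncard_le_ncard (A_succ_other k m hm) (A_finite _ _)
      have h4 := w_other (m % 15625) hr (by omega)
      rw [← h2] at h4
      have i1 := ih (2 * m)
      calc (A (k + 1) m).ncard * 1000 ^ (k + 1)
          ≤ (A k (2 * m)).ncard * 1000 ^ (k + 1) := Nat.mul_le_mul_right _ h1
        _ = 1000 * ((A k (2 * m)).ncard * 1000 ^ k) := by ring
        _ ≤ 1000 * (w ((2 * m) % 15625) * 1221 ^ k) := Nat.mul_le_mul_left _ i1
        _ = 1000 * w ((2 * m) % 15625) * 1221 ^ k := by ring
        _ ≤ 1221 * w (m % 15625) * 1221 ^ k := Nat.mul_le_mul_right _ h4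
        _ = w (m % 15625) * 1221 ^ (k + 1) := by ring

theorem w_lt (r : ℕ) : w r < 4096 := Nat.mod_lt _ (by norm_num)

theorem bound_real (k m : ℕ) : ((A k m).ncard : ℝ) ≤ 4096 * (1.221 : ℝ) ^ k := by
  have h := bound k m
  have h1 : ((A k m).ncard : ℝ) * 1000 ^ k ≤ w (m % 15625) * 1221 ^ k := by exact_mod_cast h
  have h2 : (w (m % 15625) : ℝ) ≤ 4096 := by exact_mod_cast (w_lt _).le
  have h3 : (1.221 : ℝ) ^ k = 1221 ^ k / 1000 ^ k := by
    rw [← div_pow]; norm_num
  rw [h3, ← mul_div_assoc, le_div_iff₀ (by positivity)]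
  exact h1.trans (mul_le_mul_of_nonneg_right h2 (by positivity))

end Pool.Agent.Helper648.FX
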