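import Mathlib
import Pool.Agent.Helper648.FX.Count

set_option autoImplicit false

open Filter Topology

namespace Pool.Agent.Helper648.FX

/-- the integers below `N` reaching `1` in fewer than `5 log n` steps -/
def Sh (N : ℕ) : Set ℕ :=
  {n : ℕ | n < N ∧ ∃ k : ℕ, 1 ≤ k ∧ T^[k] n = 1 ∧ (k : ℝ) < 5 * Real.log n}

theorem log_small : 5 * Real.log 1.221 ≤ 0.999 := by
  have h1 : (1.221 : ℝ) ^ 5 ≤ Real.exp 0.999 := by
    have h2 : Real.exp 0.999 = Real.exp 1 * Real.exp (-0.001) := by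
      rw [← Real.exp_add]; norm_num
    have h3 := Real.add_one_le_exp (-0.001 : ℝ)
    have h4 := Real.exp_one_gt_d9
    rw [h2]
    nlinarith [Real.exp_pos (-0.001 : ℝ)]
  have h5 := Real.log_le_log (by positivity) h1
  rw [Real.log_exp, Real.log_pow] at h5
  exact_mod_cast h5

theorem pow_bound (N : ℕ) (hN : 1 ≤ N) :
    (1.221 : ℝ) ^ ⌊5 * Real.log N⌋₊ ≤ (N : ℝ) ^ (0.999 : ℝ) := by
  have hN' : (0 : ℝ) < N := by exact_mod_cast hN
  have hlN : 0 ≤ Real.log N := Real.log_nonneg (by exact_mod_cast hN)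
  have hl : 0 ≤ Real.log 1.221 := Real.log_nonneg (by norm_num)
  have h1 : ((⌊5 * Real.log N⌋₊ : ℕ) : ℝ) ≤ 5 * Real.log N := Nat.floor_le (by positivity)
  rw [Real.rpow_def_of_pos hN', ← Real.rpow_natCast, Real.rpow_def_of_pos (by norm_num)]
  apply Real.exp_le_exp.mpr
  calc Real.log 1.221 * (⌊5 * Real.log N⌋₊ : ℕ) ≤ Real.log 1.221 * (5 * Real.log N) :=
        mul_le_mul_of_nonneg_left h1 hl
    _ = (5 * Real.log 1.221) * Real.log N := by ring
    _ ≤ 0.999 * Real.log N := mul_le_mul_of_nonneg_right log_small hlN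
    _ = Real.log N * 0.999 := by ring

theorem Sh_subset (N : ℕ) (hN : 1 ≤ N) : Sh N ⊆
    (((Finset.range (⌊5 * Real.log N⌋₊ + 1)).biUnion fun k => (A_finite k 1).toFinset) :
      Finset ℕ) := by
  rintro n ⟨hn, k, _, hk, hlt⟩
  simp only [Finset.coe_biUnion, Set.mem_iUnion, Finset.mem_coe, Finset.mem_range,
    Set.Finite.mem_toFinset]
  refine ⟨k, ?_, hk⟩
  have h1 : Real.log n ≤ Real.log N := by
    rcases Nat.eq_zero_or_pos n with h0 | h0
    · rw [h0]
      simpa using Real.log_nonneg (by exact_mod_cast hN : (1 : ℝ) ≤ N)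
    · exact Real.log_le_log (by exact_mod_cast h0) (by exact_mod_cast hn.le)
  exact Nat.lt_succ_of_le (Nat.le_floor (by linarith))

theorem count_le (N : ℕ) (hN : 1 ≤ N) :
    ((Sh N).ncard : ℝ) ≤ 22700 * (N : ℝ) ^ (0.999 : ℝ) := by
  set K := ⌊5 * Real.log N⌋₊ with hK
  have h1 : (Sh N).ncard ≤ ∑ k ∈ Finset.range (K + 1), (A k 1).ncard := by
    calc (Sh N).ncard ≤ (((Finset.range (K + 1)).biUnion fun k => (A_finite k 1).toFinset :
            Finset ℕ) : Set ℕ).ncard :=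
          Set.ncard_le_ncard (Sh_subset N hN) (Finset.finite_toSet _)
      _ = ((Finset.range (K + 1)).biUnion fun k => (A_finite k 1).toFinset).card :=
          Set.ncard_coe_finset _
      _ ≤ ∑ k ∈ Finset.range (K + 1), ((A_finite k 1).toFinset).card := Finset.card_biUnion_le
      _ = ∑ k ∈ Finset.range (K + 1), (A k 1).ncard := by
          apply Finset.sum_congr rfl
          intro k _
          rw [Set.ncard_eq_toFinset_card _ (A_finite k 1)]
  have h2 : ((Sh N).ncard : ℝ) ≤ ∑ k ∈ Finset.range (K + 1), 4096 * (1.221 : ℝ) ^ k := by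
    calc ((Sh N).ncard : ℝ) ≤ ((∑ k ∈ Finset.range (K + 1), (A k 1).ncard : ℕ) : ℝ) := by
          exact_mod_cast h1
      _ = ∑ k ∈ Finset.range (K + 1), ((A k 1).ncard : ℝ) := by push_cast; rfl
      _ ≤ _ := Finset.sum_le_sum fun k _ => bound_real k 1
  rw [← Finset.mul_sum, geom_sum_eq (by norm_num)] at h2
  have h3 := pow_bound N hN
  rw [← hK] at h3
  have h4 : 0 < (1.221 : ℝ) ^ K := by positivity
  rw [pow_succ] at h2
  have h5 : ((1.221 : ℝ) ^ K * 1.221 - 1) / (1.221 - 1) ≤ (1.221 : ℝ) ^ K * (1.221 / 0.221) := by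
    rw [div_le_iff₀ (by norm_num)]
    nlinarith
  nlinarith

theorem tendsto_main (c : ℝ) (hc : c ≤ 5) :
    Tendsto (fun N : ℕ => (({n : ℕ | n < N ∧ ∃ k : ℕ, 1 ≤ k ∧ T^[k] n = 1 ∧
      (k : ℝ) < c * Real.log n}.ncard : ℝ) / (N : ℝ))) atTop (𝓝 0) := by
  have hlim : Tendsto (fun N : ℕ => 22700 * ((N : ℝ) ^ (-(0.001 : ℝ)))) atTop (𝓝 0) := by
    have h := (tendsto_rpow_neg_atTop (y := (0.001 : ℝ)) (by norm_num)).comp
      (tendsto_natCast_atTop_atTop (R := ℝ))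
    simpa using h.const_mul 22700
  refine squeeze_zero' (Eventually.of_forall fun N => by positivity) ?_ hlim
  filter_upwards [eventually_ge_atTop 1] with N hN
  have hN' : (0 : ℝ) < N := by exact_mod_cast hN
  have hsub : {n : ℕ | n < N ∧ ∃ k : ℕ, 1 ≤ k ∧ T^[k] n = 1 ∧ (k : ℝ) < c * Real.log n} ⊆
      Sh N := by
    rintro n ⟨h1, k, h2, h3, h4⟩
    refine ⟨h1, k, h2, h3, lt_of_lt_of_le h4 ?_⟩
    exact mul_le_mul_of_nonneg_right hc (Real.log_natCast_nonneg n)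
  have hfin : (Sh N).Finite := (Set.finite_lt_nat N).subset fun n hn => hn.1
  have h1 : (({n : ℕ | n < N ∧ ∃ k : ℕ, 1 ≤ k ∧ T^[k] n = 1 ∧
      (k : ℝ) < c * Real.log n}.ncard : ℝ)) ≤ 22700 * (N : ℝ) ^ (0.999 : ℝ) :=
    le_trans (by exact_mod_cast Set.ncard_le_ncard hsub hfin) (count_le N hN)
  rw [div_le_iff₀ hN', mul_assoc, ← Real.rpow_add_one hN'.ne']
  norm_num at h1 ⊢
  exact h1

end Pool.Agent.Helper648.FX
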